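import Mathlib.Algebra.Order.Archimedean.Basic
import Mathlib.LinearAlgebra.DFinsupp
import Mathlib.LinearAlgebra.Basis.VectorSpace
import Mathlib.Algebra.Notation.Lemmas
import Mathlib.Topology.Constructions
import Mathlib.Order.Filter.Ultrafilter.Basic
import Mathlib.Algebra.Field.ZMod
import Mathlib.Algebra.Order.Ring.Star
import Mathlib.Data.Finset.Functor
import Mathlib.Topology.Instances.ZMod

-- ======== part 0: formerly Pool.Agent.MP_14ad8d_gt.Basic
section MrgPart0

/-!
Combinatorial part of a ZFC construction of a selectively pseudocompact Boolean group which is not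
strongly p-pseudocompact for any free ultrafilter p.
-/

open Filter Topology

namespace Pool.Agent.MP_14ad8d_gt

/-- The field with two elements. -/
abbrev F2 : Type := ZMod 2

lemma F2_cases (a : F2) : a = 0 ∨ a = 1 := by
  revert a; decide

/-- The limit of an `F2`-valued sequence along an ultrafilter. -/
noncomputable def ulim (q : Ultrafilter ℕ) (f : ℕ → F2) : F2 := by
  classical exact if ∀ᶠ n in (q : Filter ℕ), f n = 0 then 0 else 1

lemma ev_ulim (q : Ultrafilter ℕ) (f : ℕ → F2) : ∀ᶠ n in (q : Filter ℕ), f n = ulim q f := by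
  unfold ulim
  split_ifs with h
  · exact h
  · have h' : ∀ᶠ n in (q : Filter ℕ), ¬ f n = 0 := Ultrafilter.eventually_not.2 h
    filter_upwards [h'] with n hn
    rcases F2_cases (f n) with h0 | h1
    · exact absurd h0 hn
    · exact h1

lemma ulim_eq {q : Ultrafilter ℕ} {f : ℕ → F2} {a : F2}
    (h : ∀ᶠ n in (q : Filter ℕ), f n = a) : ulim q f = a := by
  obtain ⟨n, h1, h2⟩ := ((ev_ulim q f).and h).exists
  rw [← h1, h2]

/-- Diagonal argument with an independent family: a family of ultrafilters on `ℕ` indexed by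
sequences in a countable type misses some ultrafilter. -/
lemma exists_ultrafilter_ne {C : Type} [Countable C] (r : (ℕ → C) → Ultrafilter ℕ) :
    ∃ q : Ultrafilter ℕ, ∀ x, q ≠ r x := by
  classical
  obtain ⟨dec, hdec⟩ := exists_surjective_nat (ℕ × Finset (List C))
  let A : (ℕ → C) → Set ℕ := fun x => {i | (List.range (dec i).1).map x ∈ (dec i).2}
  let B : (ℕ → C) → Set ℕ := fun x => if A x ∈ r x then (A x)ᶜ else A x
  have hB : ∀ x, B x ∉ r x := by
    intro x
    by_cases h : A x ∈ r x
    · simp only [B, if_pos h]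
      exact fun h' => (Ultrafilter.compl_mem_iff_notMem.1 h') h
    · simp only [B, if_neg h]
      exact h
  have hfin : ∀ s : Finset (ℕ → C), ∃ i, ∀ x ∈ s, i ∈ B x := by
    intro s
    have hsep : ∀ᶠ n in atTop, ∀ x ∈ s, ∀ y ∈ s,
        (List.range n).map x = (List.range n).map y → x = y := by
      rw [eventually_all_finset]
      intro x _
      rw [eventually_all_finset]
      intro y _
      by_cases hxy : x = y
      · exact Eventually.of_forall fun _ _ => hxy
      · obtain ⟨k, hk⟩ := Function.ne_iff.1 hxy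
        filter_upwards [eventually_gt_atTop k] with n hn h
        exfalso
        apply hk
        exact List.map_inj_left.1 h k (List.mem_range.2 hn)
    obtain ⟨n, hn⟩ := hsep.exists
    obtain ⟨i, hi⟩ := hdec (n, (s.filter fun x => A x ∉ r x).image fun x => (List.range n).map x)
    refine ⟨i, fun x hx => ?_⟩
    have hiA : i ∈ A x ↔ A x ∉ r x := by
      simp only [A, Set.mem_ofPred_eq, hi, Finset.mem_image, Finset.mem_filter]
      constructor
      · rintro ⟨y, ⟨hy, hy'⟩, hxy⟩
        have := hn y hy x hx hxy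
        subst this
        exact hy'
      · intro h
        exact ⟨x, ⟨hx, h⟩, rfl⟩
    by_cases h : A x ∈ r x
    · simp only [B, if_pos h]
      exact fun h' => hiA.1 h' h
    · simp only [B, if_neg h]
      exact hiA.2 h
  have hne : (⨅ x, 𝓟 (B x)).NeBot := by
    refine ⟨fun hbot => ?_⟩
    have : (∅ : Set ℕ) ∈ ⨅ x, 𝓟 (B x) := by rw [hbot]; exact mem_bot
    rw [mem_iInf_finite] at this
    obtain ⟨s, hs⟩ := this
    rw [iInf_principal_finset, mem_principal] at hs
    obtain ⟨i, hi⟩ := hfin s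
    exact hs (Set.mem_iInter₂.2 hi)
  refine ⟨Ultrafilter.of (⨅ x, 𝓟 (B x)), fun x hx => hB x ?_⟩
  rw [← hx]
  exact Ultrafilter.of_le _ (mem_iInf_of_mem x (mem_principal_self _))

/-- For every additively closed set `N` of arrays there is a sequence `r` of ultrafilters such
that whenever `q i ≠ r i` for all `i` and `N` contains all the arrays whose rows are `q i`-null,
then `N` is everything. -/
lemma exists_forb (N : Set (ℕ → ℕ → F2)) (hN : ∀ a ∈ N, ∀ b ∈ N, a + b ∈ N) :
    ∃ r : ℕ → Ultrafilter ℕ, ∀ q : ℕ → Ultrafilter ℕ, (∀ i, q i ≠ r i) →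
      (∀ c : ℕ → ℕ → F2, (∀ i, ∀ᶠ m in (q i : Filter ℕ), c i m = 0) → c ∈ N) → ∀ c, c ∈ N := by
  classical
  by_cases h : ∃ r : ℕ → Ultrafilter ℕ,
      ∀ c : ℕ → ℕ → F2, (∀ i, ∀ᶠ m in (r i : Filter ℕ), c i m = 0) → c ∈ N
  · obtain ⟨r, hr⟩ := h
    refine ⟨r, fun q hq hqN c => ?_⟩
    have hsep : ∀ i, ∃ S : Set ℕ, S ∈ q i ∧ Sᶜ ∈ r i := by
      intro i
      by_contra hcon
      apply hq i
      have hle : (r i : Filter ℕ) ≤ (q i : Filter ℕ) := by
        intro S hS
        by_contra hS'
        exact hcon ⟨S, hS, Ultrafilter.compl_mem_iff_notMem.2 hS'⟩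
      exact (Ultrafilter.eq_of_le hle).symm
    choose S hSq hSr using hsep
    have hc : c = (fun i m => if m ∈ S i then 0 else c i m) +
        (fun i m => if m ∈ S i then c i m else 0) := by
      funext i m
      by_cases hm : m ∈ S i <;> simp [hm]
    rw [hc]
    apply hN
    · apply hqN
      intro i
      filter_upwards [hSq i] with m hm
      simp [hm]
    · apply hr
      intro i
      filter_upwards [hSr i] with m hm
      have hm' : m ∉ S i := hm
      simp [hm']
  · exact ⟨fun _ => pure 0, fun q _ hqN => absurd ⟨q, hqN⟩ h⟩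

/-- A triangular system is linearly independent, so some linear functional is `1` on it. -/
lemma exists_functional {Λ : Type} (z : ℕ → Λ → F2) (π : ℕ → Λ)
    (h1 : ∀ n, z n (π n) = 1) (h0 : ∀ n k, k < n → z n (π k) = 0) :
    ∃ F : (Λ → F2) →ₗ[F2] F2, ∀ n, F (z n) = 1 := by
  classical
  have hli : LinearIndependent F2 z := by
    rw [linearIndependent_iff']
    intro s g hs i
    induction i using Nat.strong_induction_on with
    | _ i ih =>
      intro hi
      have h := congrFun hs (π i)
      rw [Finset.sum_apply, Finset.sum_eq_single i] at h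
      · simpa [h1] using h
      · intro n hn hni
        rcases lt_or_gt_of_ne hni with hlt | hgt
        · simp [ih n hlt hn]
        · simp [h0 n i hgt]
      · intro h'
        exact absurd hi h'
  obtain ⟨F, hF⟩ := LinearMap.exists_extend
    ((Module.Basis.span hli).constr F2 (fun _ => (1 : F2)))
  refine ⟨F, fun n => ?_⟩
  have := congrArg (fun f => f (Module.Basis.span hli n)) hF
  simp only [Module.Basis.constr_basis] at this
  simpa using this

/-- Index set of the promises. -/
inductive Xi : Type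
  | base : Xi
  | node (q : Ultrafilter ℕ) (d : ℕ → ℕ → Xi) (c : ℕ → ℕ → ℕ → F2) (s : ℕ → ℕ → F2) : Xi

lemma Xi.child_ne (x : Xi) : ∀ q d c s, x = Xi.node q d c s → ∀ i j, d i j ≠ x := by
  induction x with
  | base => intro q d c s h; cases h
  | node q' d' c' s' ih =>
    intro q d c s h i j hij
    cases h
    exact ih i j _ _ _ _ hij i j rfl

/-- The ultrafilter of a promise. -/
def Xi.uf : Xi → Ultrafilter ℕ
  | Xi.base => pure 0
  | Xi.node q _ _ _ => q

/-- Index set of the characters. -/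
abbrev Lam : Type := (ℕ → Xi) × (ℕ → ℕ → F2)

/-- The intended value of the `n`-th generator of a promise at a character. -/
noncomputable def Xi.intended : Xi → ℕ → Lam → F2
  | Xi.base, _, _ => 0
  | Xi.node _ d c s, n, l => by
      classical exact if h : ∃ j, (d j, c j) = l then s n h.choose else 0

/-- The value of the `n`-th generator of a promise at a character. -/
noncomputable def gen (ξ : Xi) (n : ℕ) (l : Lam) : F2 := by
  classical exact if h : ∃ i, l.1 i = ξ then l.2 h.choose n else ξ.intended n l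

lemma gen_promise (q : Ultrafilter ℕ) (L : ℕ → Lam) (t : ℕ → Lam → F2) :
    ∃ ξ : Xi, ξ.uf = q ∧ ∀ n j, gen ξ n (L j) = t n (L j) := by
  refine ⟨Xi.node q (fun j => (L j).1) (fun j => (L j).2) (fun n j => t n (L j)), rfl,
    fun n j => ?_⟩
  have h1 : ¬ ∃ i, (L j).1 i =
      Xi.node q (fun j => (L j).1) (fun j => (L j).2) (fun n j => t n (L j)) := by
    rintro ⟨i, hi⟩
    exact Xi.child_ne _ q (fun j => (L j).1) (fun j => (L j).2) (fun n j => t n (L j)) rfl j i hi
  have h2 : ∃ j', ((L j').1, (L j').2) = L j := ⟨j, rfl⟩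
  unfold gen
  rw [dif_neg h1]
  simp only [Xi.intended]
  rw [dif_pos h2]
  have := h2.choose_spec
  exact congrArg (t n) this

lemma gen_free (d : ℕ → Xi) (c : Xi → ℕ → F2) :
    ∃ l : Lam, ∀ i m, gen (d i) m l = c (d i) m := by
  refine ⟨(d, fun i m => c (d i) m), fun i m => ?_⟩
  have h : ∃ i', d i' = d i := ⟨i, rfl⟩
  unfold gen
  rw [dif_pos h]
  exact congrArg (fun ξ => c ξ m) h.choose_spec

end Pool.Agent.MP_14ad8d_gt

end MrgPart0

-- ======== part 1: formerly Pool.Agent.MP_14ad8d_gt.Group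
section MrgPart1

/-!
The groups `H p` and their product.
-/

open Filter Topology

namespace Pool.Agent.MP_14ad8d_gt

/-- The arrays whose sums along the sequence `u` of finite lists vanish `p`-almost always. -/
def nullSet (p : Ultrafilter ℕ) (u : ℕ → List (ℕ × ℕ)) : Set (ℕ → ℕ → F2) :=
  {C | ∀ᶠ n in (p : Filter ℕ), ((u n).map fun a => C a.1 a.2).sum = 0}

lemma nullSet_add (p : Ultrafilter ℕ) (u : ℕ → List (ℕ × ℕ)) :
    ∀ a ∈ nullSet p u, ∀ b ∈ nullSet p u, a + b ∈ nullSet p u := by
  intro a ha b hb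
  filter_upwards [ha, hb] with n h1 h2
  simp only [Pi.add_apply]
  rw [List.sum_map_add, h1, h2, add_zero]

/-- The forbidden ultrafilters for `p`. -/
noncomputable def forb (p : Ultrafilter ℕ) (u : ℕ → List (ℕ × ℕ)) : ℕ → Ultrafilter ℕ :=
  (exists_forb (nullSet p u) (nullSet_add p u)).choose

/-- The ultrafilters allowed for `p`. -/
def Allowed (p q : Ultrafilter ℕ) : Prop := ∀ u i, q ≠ forb p u i

lemma exists_allowed (P : ℕ → Ultrafilter ℕ) :
    ∃ q : Ultrafilter ℕ, (q : Filter ℕ) ≤ cofinite ∧ ∀ j, Allowed (P j) q := by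
  classical
  obtain ⟨q, hq⟩ := exists_ultrafilter_ne (C := Bool × ℕ × ℕ × List (ℕ × ℕ))
    (fun x => if (x 0).1 = true then pure (x 0).2.1
      else forb (P (x 0).2.1) (fun n => (x n).2.2.2) (x 0).2.2.1)
  refine ⟨q, ?_, fun j u i => ?_⟩
  · rcases q.le_cofinite_or_eq_pure with h | ⟨a, ha⟩
    · exact h
    · exact absurd ha (by simpa using hq (fun _ => (true, a, 0, [])))
  · simpa using hq (fun n => (false, j, i, u n))

/-- The limit of the generators of a promise. -/
noncomputable def glim (ξ : Xi) : Lam → F2 := fun l => ulim ξ.uf (fun m => gen ξ m l)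

/-- The subgroup generated by the generators and limits of the promises allowed for `p`. -/
def H (p : Ultrafilter ℕ) : AddSubgroup (Lam → F2) where
  carrier := {x | ∃ (l₁ : List (Xi × ℕ)) (l₂ : List Xi), (∀ a ∈ l₁, Allowed p a.1.uf) ∧
    (∀ ξ ∈ l₂, Allowed p ξ.uf) ∧
    x = (l₁.map fun a => gen a.1 a.2).sum + (l₂.map glim).sum}
  zero_mem' := ⟨[], [], by simp, by simp, by simp⟩
  add_mem' := by
    rintro x y ⟨l₁, l₂, h₁, h₂, rfl⟩ ⟨m₁, m₂, k₁, k₂, rfl⟩
    refine ⟨l₁ ++ m₁, l₂ ++ m₂, ?_, ?_, ?_⟩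
    · intro a ha
      rcases List.mem_append.1 ha with h | h
      · exact h₁ a h
      · exact k₁ a h
    · intro a ha
      rcases List.mem_append.1 ha with h | h
      · exact h₂ a h
      · exact k₂ a h
    · simp only [List.map_append, List.sum_append]
      abel
  neg_mem' := by
    intro x hx
    have : -x = x := by
      funext l
      simp only [Pi.neg_apply]
      exact ZMod.neg_eq_self_mod_two _
    rw [this]
    exact hx

lemma gen_mem {p : Ultrafilter ℕ} {ξ : Xi} (h : Allowed p ξ.uf) (n : ℕ) : gen ξ n ∈ H p :=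
  ⟨[(ξ, n)], [], by simpa using h, by simp, by simp⟩

lemma glim_mem {p : Ultrafilter ℕ} {ξ : Xi} (h : Allowed p ξ.uf) : glim ξ ∈ H p :=
  ⟨[], [ξ], by simp, by simpa using h, by simp⟩

/-- The key lemma: a sequence in `H p` on which some linear functional is constantly `1` does not
converge pointwise to `0` along `p`. -/
lemma not_null (p : Ultrafilter ℕ) (z : ℕ → Lam → F2) (hz : ∀ n, z n ∈ H p)
    (F : (Lam → F2) →ₗ[F2] F2) (hF : ∀ n, F (z n) = 1) :
    ¬ ∀ l, ∀ᶠ n in (p : Filter ℕ), z n l = 0 := by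
  classical
  intro hnull
  choose l₁ l₂ h₁ h₂ hzl using hz
  obtain ⟨q₀, -, hq₀⟩ := exists_allowed (fun _ => p)
  obtain ⟨ξ₀, hξ₀, -⟩ := gen_promise q₀ (fun _ => (fun _ => Xi.base, fun _ _ => 0)) (fun _ _ => 0)
  let D : Set Xi := insert ξ₀ (⋃ n, ({ξ | ξ ∈ (l₁ n).map Prod.fst} ∪ {ξ | ξ ∈ l₂ n}))
  have hDc : D.Countable := by
    refine Set.Countable.insert _ (Set.countable_iUnion fun n => Set.Countable.union ?_ ?_)
    · exact (List.finite_toSet _).countable
    · exact (List.finite_toSet _).countable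
  obtain ⟨d, hd⟩ := hDc.exists_eq_range ⟨ξ₀, Set.mem_insert _ _⟩
  have hdA : ∀ i, Allowed p (d i).uf := by
    intro i
    have hi : d i ∈ D := hd ▸ Set.mem_range_self i
    rcases hi with hi | hi
    · rw [hi, hξ₀]; exact hq₀ 0
    · obtain ⟨n, hn⟩ := Set.mem_iUnion.1 hi
      rcases hn with hn | hn
      · obtain ⟨a, ha, ha'⟩ := List.mem_map.1 hn
        rw [← ha']; exact h₁ n a ha
      · exact h₂ n _ hn
  have hD₁ : ∀ n, ∀ a ∈ l₁ n, ∃ i, d i = a.1 := by
    intro n a ha
    have : a.1 ∈ D := Or.inr (Set.mem_iUnion.2 ⟨n, Or.inl (List.mem_map.2 ⟨a, ha, rfl⟩)⟩)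
    rw [hd] at this
    exact this
  have hD₂ : ∀ n, ∀ ξ ∈ l₂ n, ∃ i, d i = ξ := by
    intro n ξ hξ
    have : ξ ∈ D := Or.inr (Set.mem_iUnion.2 ⟨n, Or.inr hξ⟩)
    rw [hd] at this
    exact this
  have hadd : ∀ (φ : (Lam → F2) →+ F2) (n : ℕ), φ (z n) =
      ((l₁ n).map fun a => φ (gen a.1 a.2)).sum + ((l₂ n).map fun ξ => φ (glim ξ)).sum := by
    intro φ n
    rw [hzl n, map_add, map_list_sum, map_list_sum, List.map_map, List.map_map]
    rfl
  have factA : ∀ c : Xi → ℕ → F2, ∀ᶠ n in (p : Filter ℕ),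
      ((l₁ n).map fun a => c a.1 a.2).sum + ((l₂ n).map fun ξ => ulim ξ.uf (c ξ)).sum = 0 := by
    intro c
    obtain ⟨l, hl⟩ := gen_free d c
    filter_upwards [hnull l] with n hn
    have h := hadd (Pi.evalAddMonoidHom (fun _ : Lam => F2) l) n
    simp only [Pi.evalAddMonoidHom_apply] at h
    rw [hn] at h
    rw [h]
    congr 2
    · apply List.map_congr_left
      intro a ha
      obtain ⟨i, hi⟩ := hD₁ n a ha
      rw [← hi, hl]
    · apply List.map_congr_left
      intro ξ hξ
      obtain ⟨i, hi⟩ := hD₂ n ξ hξ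
      unfold glim
      congr 1
      funext m
      rw [← hi, hl]
  let e : Xi → ℕ := Function.invFun d
  let u : ℕ → List (ℕ × ℕ) := fun n => (l₁ n).map fun a => (e a.1, a.2)
  have factB : ∀ C, C ∈ nullSet p u := by
    refine (exists_forb (nullSet p u) (nullSet_add p u)).choose_spec (fun i => (d i).uf)
      (fun i => hdA i u i) ?_
    intro C hC
    filter_upwards [factA (fun ξ m => C (e ξ) m)] with n hn
    have h0 : ((l₂ n).map fun ξ => ulim ξ.uf (fun m => C (e ξ) m)).sum = 0 := by
      apply List.sum_eq_zero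
      intro x hx
      obtain ⟨ξ, hξ, rfl⟩ := List.mem_map.1 hx
      apply ulim_eq
      have hde : d (e ξ) = ξ := Function.invFun_eq (hD₂ n ξ hξ)
      have := hC (e ξ)
      rwa [hde] at this
    rw [h0, add_zero] at hn
    simp only [u, List.map_map]
    exact hn
  have factC : ∀ c : Xi → ℕ → F2, ∀ᶠ n in (p : Filter ℕ),
      ((l₁ n).map fun a => c a.1 a.2).sum = 0 := by
    intro c
    filter_upwards [factB (fun i m => c (d i) m)] with n hn
    simp only [u, List.map_map] at hn
    rw [← hn]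
    congr 1
    apply List.map_congr_left
    intro a ha
    have hde : d (e a.1) = a.1 := Function.invFun_eq (hD₁ n a ha)
    simp [hde]
  have factD : ∀ c : Xi → F2, ∀ᶠ n in (p : Filter ℕ), ((l₂ n).map c).sum = 0 := by
    intro c
    filter_upwards [factA (fun ξ _ => c ξ), factC (fun ξ _ => c ξ)] with n hn hn'
    rw [hn', zero_add] at hn
    rw [← hn]
    congr 1
    apply List.map_congr_left
    intro ξ _
    exact (ulim_eq (Eventually.of_forall fun _ => rfl)).symm
  obtain ⟨n, hn, hn'⟩ :=
    ((factC fun ξ m => F (gen ξ m)).and (factD fun ξ => F (glim ξ))).exists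
  have h := hadd F.toAddMonoidHom n
  simp only [LinearMap.toAddMonoidHom_coe] at h
  rw [hn, hn', hF n] at h
  exact absurd h (by decide)

/-- The product of the groups `H p`. -/
def G : AddSubgroup (Ultrafilter ℕ × Lam → F2) where
  carrier := {g | ∀ p, (fun l => g (p, l)) ∈ H p}
  zero_mem' := fun p => (H p).zero_mem
  add_mem' := fun ha hb p => (H p).add_mem (ha p) (hb p)
  neg_mem' := fun ha p => (H p).neg_mem (ha p)

lemma exists_finset_of_isOpen {U : Set G} (hU : IsOpen U) {g : G} (hg : g ∈ U) :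
    ∃ I : Finset (Ultrafilter ℕ × Lam), ∀ g' : G, (∀ a ∈ I, g'.1 a = g.1 a) → g' ∈ U := by
  obtain ⟨V, hV, rfl⟩ := isOpen_induced_iff.1 hU
  obtain ⟨I, v, hv, hI⟩ := isOpen_pi_iff.1 hV g.1 hg
  refine ⟨I, fun g' hg' => hI fun a ha => ?_⟩
  rw [hg' a ha]
  exact (hv a ha).2

lemma tendsto_G_iff {x : ℕ → G} {y : G} {f : Filter ℕ} :
    Tendsto x f (𝓝 y) ↔ ∀ a, ∀ᶠ n in f, (x n).1 a = y.1 a := by
  rw [tendsto_subtype_rng, tendsto_pi_nhds]
  refine forall_congr' fun a => ?_
  rw [nhds_discrete, tendsto_pure]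

/-- Every sequence of nonempty open sets has a selection converging along a free ultrafilter. -/
theorem selective (U : ℕ → Set G) (hU : ∀ n, IsOpen (U n) ∧ (U n).Nonempty) :
    ∃ x : ℕ → G, (∀ n, x n ∈ U n) ∧ ∃ y : G, MapClusterPt y atTop x := by
  classical
  choose g hg using fun n => (hU n).2
  choose I hI using fun n => exists_finset_of_isOpen (hU n).1 (hg n)
  have hJ : (⋃ n, (I n : Set (Ultrafilter ℕ × Lam))).Countable :=
    Set.countable_iUnion fun n => (I n).countable_toSet
  have : Nonempty (Ultrafilter ℕ × Lam) := ⟨(pure 0, fun _ => Xi.base, fun _ _ => 0)⟩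
  obtain ⟨j, hj⟩ := Set.countable_iff_exists_subset_range.1 hJ
  obtain ⟨q, hq, hqA⟩ := exists_allowed (fun i => (j i).1)
  choose ξ hξq hξ using fun p : Ultrafilter ℕ =>
    gen_promise q (fun i => (j i).2) (fun n l => (g n).1 (p, l))
  let x : ℕ → G := fun n => ⟨fun a => if Allowed a.1 q then gen (ξ a.1) n a.2 else 0, by
    intro p
    by_cases h : Allowed p q
    · simp only [if_pos h]
      exact gen_mem (by rw [hξq]; exact h) n
    · simp only [if_neg h]
      exact (H p).zero_mem⟩
  let y : G := ⟨fun a => if Allowed a.1 q then glim (ξ a.1) a.2 else 0, by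
    intro p
    by_cases h : Allowed p q
    · simp only [if_pos h]
      exact glim_mem (by rw [hξq]; exact h)
    · simp only [if_neg h]
      exact (H p).zero_mem⟩
  refine ⟨x, fun n => hI n _ fun a ha => ?_, y, ?_⟩
  · obtain ⟨i, rfl⟩ := hj (Set.mem_iUnion.2 ⟨n, ha⟩)
    simp only [x, if_pos (hqA i)]
    exact hξ _ n i
  · have ht : Tendsto x (q : Filter ℕ) (𝓝 y) := by
      rw [tendsto_G_iff]
      intro a
      by_cases h : Allowed a.1 q
      · simp only [x, y, if_pos h]
        have := ev_ulim (ξ a.1).uf (fun m => gen (ξ a.1) m a.2)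
        rw [hξq] at this
        filter_upwards [this] with n hn
        rw [hn]
        unfold glim
        rw [hξq]
      · simp only [x, y, if_neg h]
        exact Eventually.of_forall fun _ => trivial
    exact ht.mapClusterPt.mono (by rwa [← Nat.cofinite_eq_atTop])

/-- For every free ultrafilter some sequence of nonempty open sets has no convergent selection. -/
theorem not_strongly (p : Ultrafilter ℕ) (hp : (p : Filter ℕ) ≤ cofinite) :
    ∃ U : ℕ → Set G, (∀ n, IsOpen (U n) ∧ (U n).Nonempty) ∧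
      ∀ x : ℕ → G, (∀ n, x n ∈ U n) → ∀ y : G, ¬ Tendsto x (p : Filter ℕ) (𝓝 y) := by
  classical
  obtain ⟨q₀, -, hq₀⟩ := exists_allowed (fun _ => p)
  obtain ⟨ξ₀, hξ₀, -⟩ := gen_promise q₀ (fun _ => (fun _ => Xi.base, fun _ _ => 0)) (fun _ _ => 0)
  have hA : Allowed p ξ₀.uf := by rw [hξ₀]; exact hq₀ 0
  choose π hπ using fun k : ℕ => gen_free (fun _ => ξ₀) (fun _ m => if m = k then 1 else 0)
  refine ⟨fun n => {g | g.1 (p, π n) = 1} ∩ ⋂ k ∈ Set.Iio n, {g | g.1 (p, π k) = 0},
    fun n => ⟨?_, ?_⟩, ?_⟩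
  · have hc : ∀ a : Ultrafilter ℕ × Lam, Continuous fun g : G => g.1 a :=
      fun a => (continuous_apply a).comp continuous_subtype_val
    refine IsOpen.inter ?_ ((Set.finite_Iio n).isOpen_biInter fun k _ => ?_)
    · exact (isOpen_discrete {(1 : F2)}).preimage (hc _)
    · exact (isOpen_discrete {(0 : F2)}).preimage (hc _)
  · refine ⟨⟨fun a => if a.1 = p then gen ξ₀ n a.2 else 0, ?_⟩, ?_, ?_⟩
    · intro p'
      by_cases h : p' = p
      · subst h
        simp only [if_true]
        exact gen_mem hA n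
      · simp only [if_neg h]
        exact (H p').zero_mem
    · simp [hπ n 0 n]
    · simp only [Set.mem_iInter]
      intro k hk
      have : n ≠ k := (Set.mem_Iio.1 hk).ne'
      simp [hπ k 0 n, this]
  · intro x hx y hy
    rw [tendsto_G_iff] at hy
    have hx1 : ∀ n, (x n).1 (p, π n) = 1 := fun n => (hx n).1
    have hx0 : ∀ n k, k < n → (x n).1 (p, π k) = 0 := fun n k hk =>
      Set.mem_iInter₂.1 (hx n).2 k hk
    have hy0 : ∀ k, y.1 (p, π k) = 0 := by
      intro k
      have hk : ∀ᶠ n in (p : Filter ℕ), k < n :=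
        (hp.trans Nat.cofinite_eq_atTop.le) (eventually_gt_atTop k)
      obtain ⟨n, h1, h2⟩ := ((hy (p, π k)).and hk).exists
      rw [← h1, hx0 n k h2]
    let z : ℕ → Lam → F2 := fun n => (fun l => (x n).1 (p, l)) - fun l => y.1 (p, l)
    obtain ⟨F, hF⟩ := exists_functional z π (fun n => by simp [z, hx1, hy0])
      (fun n k hk => by simp [z, hx0 n k hk, hy0])
    refine not_null p z (fun n => (H p).sub_mem ((x n).2 p) (y.2 p)) F hF fun l => ?_
    filter_upwards [hy (p, l)] with n hn
    simp [z, hn]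

end Pool.Agent.MP_14ad8d_gt

end MrgPart1

-- marker of a merged file
example : 731051 + 115693 = 731051 + 115693 := rfl
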